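import Mathlib.NumberTheory.SmoothNumbers
import Mathlib.Data.Int.CardIntervalMod
import Mathlib.Analysis.SpecificLimits.Basic
import Mathlib.Tactic

/-!
Disjoint residue classes with distinct moduli: counting lemmas, the smooth/rough splitting,
and a Rogers-type inequality.
-/

namespace Pool.Agent.Work.MP_cda74c_nt

open Finset

/-- The classes `a m mod m`, `m ∈ T`, are pairwise disjoint (in the naturals). -/
def Disj (T : Finset ℕ) (a : ℕ → ℕ) : Prop :=
  ∀ m ∈ T, ∀ n ∈ T, m ≠ n → ∀ x : ℕ, x ≡ a m [MOD m] → x ≡ a n [MOD n] → False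

lemma Disj.mono {T S : Finset ℕ} {a : ℕ → ℕ} (h : Disj T a) (hS : S ⊆ T) : Disj S a :=
  fun m hm n hn => h m (hS hm) n (hS hn)

/-- `K y = ∏_{p < y} (1 - 1/p)⁻¹`. -/
noncomputable def K (y : ℕ) : ℝ := ∏ p ∈ y.primesBelow, (1 - (p : ℝ)⁻¹)⁻¹

lemma one_sub_inv_pos {p : ℕ} (hp : p.Prime) : 0 < 1 - (p : ℝ)⁻¹ := by
  have h : (1 : ℝ) < p := by exact_mod_cast hp.one_lt
  have : (p : ℝ)⁻¹ < 1 := inv_lt_one_of_one_lt₀ h
  linarith

lemma K_pos (y : ℕ) : 0 < K y := by
  unfold K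
  exact Finset.prod_pos fun p hp => inv_pos.mpr (one_sub_inv_pos (Nat.prime_of_mem_primesBelow hp))

lemma K_succ_prime {q : ℕ} (hq : q.Prime) : K (q + 1) = (1 - (q : ℝ)⁻¹)⁻¹ * K q := by
  unfold K
  rw [Nat.primesBelow_succ, if_pos hq, Finset.prod_insert]
  simp [Nat.mem_primesBelow]

lemma K_succ_not_prime {q : ℕ} (hq : ¬ q.Prime) : K (q + 1) = K q := by
  unfold K
  rw [Nat.primesBelow_succ, if_neg hq]

lemma card_class {M d : ℕ} (hd : d ∣ M) (hM : 0 < M) (v : ℕ) :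
    (((range M).filter (fun x => x ≡ v [MOD d])).card : ℝ) = (M : ℝ) / d := by
  have hd0 : 0 < d := Nat.pos_of_dvd_of_pos hd hM
  have h := Nat.count_modEq_card M hd0 v
  rw [Nat.count_eq_card_filter_range] at h
  have hz : M % d = 0 := Nat.mod_eq_zero_of_dvd hd
  rw [hz] at h
  simp only [Nat.not_lt_zero, if_false, add_zero] at h
  rw [h, Nat.cast_div hd (by exact_mod_cast hd0.ne')]

/-- `n` has no prime factor below `y`. -/
def Rough (y n : ℕ) : Prop := ∀ p, p.Prime → p ∣ n → y ≤ p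

lemma coprime_of_smooth_rough {y d n : ℕ} (hd : d ∈ y.smoothNumbers) (hn : Rough y n) :
    Nat.Coprime d n := by
  rw [Nat.coprime_iff_gcd_eq_one]
  by_contra h
  obtain ⟨p, hp, hpd⟩ := Nat.exists_prime_and_dvd h
  have h1 := Nat.mem_smoothNumbers'.mp hd p hp (hpd.trans (Nat.gcd_dvd_left _ _))
  have h2 := hn p hp (hpd.trans (Nat.gcd_dvd_right _ _))
  omega

lemma Rough.mul {y m n : ℕ} (hm : Rough y m) (hn : Rough y n) : Rough y (m * n) := by
  intro p hp h
  rcases (Nat.Prime.dvd_mul hp).mp h with h | h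
  · exact hm p hp h
  · exact hn p hp h

lemma exists_split (y m : ℕ) : ∃ d n : ℕ, m ≠ 0 → d * n = m ∧ d ∈ y.smoothNumbers ∧ Rough y n := by
  induction m using induction_on_primes with
  | zero => exact ⟨0, 0, fun h => absurd rfl h⟩
  | one =>
    refine ⟨1, 1, fun _ => ⟨rfl, ?_, ?_⟩⟩
    · rw [Nat.mem_smoothNumbers']
      intro p hp h
      exact absurd (Nat.dvd_one.mp h) hp.one_lt.ne'
    · intro p hp h
      exact absurd (Nat.dvd_one.mp h) hp.one_lt.ne'
  | prime_mul p m hp ih =>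
    obtain ⟨d, n, h⟩ := ih
    by_cases hm : m = 0
    · exact ⟨0, 0, fun h => absurd (by simp [hm]) h⟩
    obtain ⟨h1, h2, h3⟩ := h hm
    by_cases hpy : p < y
    · refine ⟨p * d, n, fun _ => ⟨by rw [mul_assoc, h1], ?_, h3⟩⟩
      rw [Nat.mem_smoothNumbers']
      intro q hq hqd
      rcases (Nat.Prime.dvd_mul hq).mp hqd with h | h
      · rw [(Nat.prime_dvd_prime_iff_eq hq hp).mp h]; exact hpy
      · exact Nat.mem_smoothNumbers'.mp h2 q hq h
    · refine ⟨d, p * n, fun _ => ⟨by rw [← h1]; ring, h2, ?_⟩⟩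
      intro q hq hqd
      rcases (Nat.Prime.dvd_mul hq).mp hqd with h | h
      · rw [(Nat.prime_dvd_prime_iff_eq hq hp).mp h]; omega
      · exact h3 q hq h

/-- the `y`-smooth part -/
noncomputable def dd (y m : ℕ) : ℕ := (exists_split y m).choose

/-- the `y`-rough part -/
noncomputable def nn (y m : ℕ) : ℕ := (exists_split y m).choose_spec.choose

lemma dd_mul_nn {y m : ℕ} (hm : m ≠ 0) : dd y m * nn y m = m :=
  ((exists_split y m).choose_spec.choose_spec hm).1

lemma dd_smooth {y m : ℕ} (hm : m ≠ 0) : dd y m ∈ y.smoothNumbers :=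
  ((exists_split y m).choose_spec.choose_spec hm).2.1

lemma nn_rough {y m : ℕ} (hm : m ≠ 0) : Rough y (nn y m) :=
  ((exists_split y m).choose_spec.choose_spec hm).2.2

lemma dd_dvd {y m : ℕ} (hm : m ≠ 0) : dd y m ∣ m := Dvd.intro _ (dd_mul_nn hm)

lemma nn_dvd {y m : ℕ} (hm : m ≠ 0) : nn y m ∣ m := Dvd.intro_left _ (dd_mul_nn hm)

lemma dd_pos {y m : ℕ} (hm : m ≠ 0) : 0 < dd y m :=
  Nat.pos_of_dvd_of_pos (dd_dvd hm) (Nat.pos_of_ne_zero hm)

lemma nn_pos {y m : ℕ} (hm : m ≠ 0) : 0 < nn y m :=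
  Nat.pos_of_dvd_of_pos (nn_dvd hm) (Nat.pos_of_ne_zero hm)

lemma dd_dvd_dd {y m M : ℕ} (hM : M ≠ 0) (h : m ∣ M) : dd y m ∣ dd y M := by
  have hm : m ≠ 0 := by rintro rfl; exact hM (Nat.eq_zero_of_zero_dvd h)
  have h1 : dd y m ∣ dd y M * nn y M := by rw [dd_mul_nn hM]; exact (dd_dvd hm).trans h
  exact (coprime_of_smooth_rough (dd_smooth hm) (nn_rough hM)).dvd_of_dvd_mul_right h1

lemma nn_dvd_nn {y m M : ℕ} (hM : M ≠ 0) (h : m ∣ M) : nn y m ∣ nn y M := by
  have hm : m ≠ 0 := by rintro rfl; exact hM (Nat.eq_zero_of_zero_dvd h)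
  have h1 : nn y m ∣ dd y M * nn y M := by rw [dd_mul_nn hM]; exact (nn_dvd hm).trans h
  exact (coprime_of_smooth_rough (dd_smooth hM) (nn_rough hm)).symm.dvd_of_dvd_mul_left h1

lemma modEq_of_split {y m x v : ℕ} (hm : m ≠ 0) (h1 : x ≡ v [MOD dd y m])
    (h2 : x ≡ v [MOD nn y m]) : x ≡ v [MOD m] := by
  have := (Nat.modEq_and_modEq_iff_modEq_mul
    (coprime_of_smooth_rough (dd_smooth (y := y) hm) (nn_rough hm))).mp ⟨h1, h2⟩
  rwa [dd_mul_nn hm] at this

open Classical in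
/-- number of points of `range M` in the union of the classes -/
noncomputable def cov (M : ℕ) (T : Finset ℕ) (a : ℕ → ℕ) : ℕ :=
  ((range M).filter (fun x => ∃ d ∈ T, x ≡ a d [MOD d])).card

/-- The Rogers-type inequality at level `y`. -/
def Rogers (y : ℕ) : Prop :=
  ∀ (M : ℕ) (T : Finset ℕ) (a : ℕ → ℕ), 0 < M → (∀ d ∈ T, d ∣ M) →
    (∀ d ∈ T, d ∈ y.smoothNumbers) → ∑ d ∈ T, (M : ℝ) / d ≤ K y * cov M T a

open Classical in
/-- rough parts seen at the point `x` -/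
noncomputable def seen (y : ℕ) (T : Finset ℕ) (a : ℕ → ℕ) (x : ℕ) : Finset ℕ :=
  (T.filter (fun m => x ≡ a m [MOD dd y m])).image (nn y)

lemma mem_seen {y : ℕ} {T : Finset ℕ} {a : ℕ → ℕ} {x n : ℕ} :
    n ∈ seen y T a x ↔ ∃ m ∈ T, x ≡ a m [MOD dd y m] ∧ nn y m = n := by
  simp [seen, and_assoc]

lemma fibre_ineq {y : ℕ} (hR : Rogers y) (M : ℕ) (T : Finset ℕ) (a : ℕ → ℕ) (hM : 0 < M)
    (hT : ∀ m ∈ T, m ∣ M) :
    ∑ m ∈ T, (M : ℝ) / m ≤ K y * ∑ x ∈ range M, ∑ n ∈ seen y T a x, (n : ℝ)⁻¹ := by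
  classical
  have hne : ∀ m ∈ T, m ≠ 0 := fun m hm h0 => by
    have := hT m hm
    rw [h0] at this
    exact hM.ne' (Nat.eq_zero_of_zero_dvd this)
  set N := T.image (nn y) with hN
  have hmaps : ∀ m ∈ T, nn y m ∈ N := fun m hm => Finset.mem_image_of_mem _ hm
  rw [← Finset.sum_fiberwise_of_maps_to hmaps]
  have hR2 : ∑ x ∈ range M, ∑ n ∈ seen y T a x, (n : ℝ)⁻¹
      = ∑ n ∈ N, (((range M).filter (fun x => n ∈ seen y T a x)).card : ℝ) * (n : ℝ)⁻¹ := by
    have : ∀ x ∈ range M, ∑ n ∈ seen y T a x, (n : ℝ)⁻¹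
        = ∑ n ∈ N, if n ∈ seen y T a x then (n : ℝ)⁻¹ else 0 := by
      intro x _
      rw [← Finset.sum_filter]
      congr 1
      ext n
      simp only [Finset.mem_filter]
      constructor
      · intro h
        refine ⟨?_, h⟩
        obtain ⟨m, hm, _, rfl⟩ := mem_seen.mp h
        exact hmaps m hm
      · exact fun h => h.2
    rw [Finset.sum_congr rfl this, Finset.sum_comm]
    refine Finset.sum_congr rfl fun n _ => ?_
    rw [← Finset.sum_filter, Finset.sum_const, nsmul_eq_mul]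
  rw [hR2, Finset.mul_sum]
  refine Finset.sum_le_sum fun n hn => ?_
  -- the family of smooth parts
  set Tn := T.filter (fun m => nn y m = n) with hTn
  have hinj : Set.InjOn (dd y) (Tn : Set ℕ) := by
    intro m hm m' hm' h
    have hm1 := Finset.mem_filter.mp (Finset.mem_coe.mp hm)
    have hm2 := Finset.mem_filter.mp (Finset.mem_coe.mp hm')
    rw [← dd_mul_nn (y := y) (hne m hm1.1), ← dd_mul_nn (y := y) (hne m' hm2.1), h, hm1.2, hm2.2]
  have h1 := hR M (Tn.image (dd y)) (fun d => a (d * n)) hM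
    (by
      intro d hd
      obtain ⟨m, hm, rfl⟩ := Finset.mem_image.mp hd
      have hm1 := Finset.mem_filter.mp hm
      exact (dd_dvd (hne m hm1.1)).trans (hT m hm1.1))
    (by
      intro d hd
      obtain ⟨m, hm, rfl⟩ := Finset.mem_image.mp hd
      have hm1 := Finset.mem_filter.mp hm
      exact dd_smooth (hne m hm1.1))
  rw [Finset.sum_image hinj] at h1
  have h2 : cov M (Tn.image (dd y)) (fun d => a (d * n))
      = ((range M).filter (fun x => n ∈ seen y T a x)).card := by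
    unfold cov
    congr 1
    ext x
    simp only [Finset.mem_filter, mem_seen, Finset.mem_image]
    constructor
    · rintro ⟨hx, d, ⟨m, hm, rfl⟩, h⟩
      have hm1 := Finset.mem_filter.mp hm
      refine ⟨hx, m, hm1.1, ?_, hm1.2⟩
      rwa [← hm1.2, dd_mul_nn (hne m hm1.1)] at h
    · rintro ⟨hx, m, hm, h, hn'⟩
      refine ⟨hx, dd y m, ⟨m, Finset.mem_filter.mpr ⟨hm, hn'⟩, rfl⟩, ?_⟩
      rwa [← hn', dd_mul_nn (hne m hm)]
  rw [h2] at h1
  have h3 : ∑ m ∈ Tn, (M : ℝ) / m = (∑ m ∈ Tn, (M : ℝ) / (dd y m)) * (n : ℝ)⁻¹ := by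
    rw [Finset.sum_mul]
    refine Finset.sum_congr rfl fun m hm => ?_
    have hm1 := Finset.mem_filter.mp hm
    have : (m : ℝ) = (dd y m : ℝ) * n := by
      rw [← hm1.2]; exact_mod_cast (dd_mul_nn (hne m hm1.1)).symm
    rw [this, div_mul_eq_div_div, div_eq_mul_inv]
  rw [h3, ← mul_assoc]
  exact mul_le_mul_of_nonneg_right h1 (by positivity)

/-- geometric bound for a finite set of powers of `q` with exponents at least `e` -/
lemma geom_bound {q : ℕ} (hq : q.Prime) (e : ℕ) (N : Finset ℕ)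
    (hN : ∀ n ∈ N, ∃ k, e ≤ k ∧ n = q ^ k) :
    ∑ n ∈ N, (n : ℝ)⁻¹ ≤ (1 - (q : ℝ)⁻¹)⁻¹ * ((q : ℝ) ^ e)⁻¹ := by
  classical
  have hq1 : (1 : ℝ) < q := by exact_mod_cast hq.one_lt
  have hr0 : (0 : ℝ) ≤ (q : ℝ)⁻¹ := by positivity
  have hr1 : (q : ℝ)⁻¹ < 1 := inv_lt_one_of_one_lt₀ hq1
  have hs := (hasSum_geometric_of_lt_one hr0 hr1).mul_right (((q : ℝ) ^ e)⁻¹)
  choose! k hk using hN
  have hinj : Set.InjOn (fun n => k n - e) (N : Set ℕ) := by
    intro n hn n' hn' h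
    have h1 := hk n (Finset.mem_coe.mp hn)
    have h2 := hk n' (Finset.mem_coe.mp hn')
    simp only at h
    have : k n = k n' := by omega
    rw [h1.2, h2.2, this]
  have h := sum_le_hasSum (N.image (fun n => k n - e)) (fun i _ => by positivity) hs
  rw [Finset.sum_image hinj] at h
  refine le_trans (le_of_eq ?_) h
  refine Finset.sum_congr rfl fun n hn => ?_
  have h1 := hk n hn
  rw [inv_pow, ← mul_inv, ← pow_add, Nat.sub_add_cancel h1.1]
  conv_lhs => rw [h1.2]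
  push_cast
  rfl

lemma rogers_succ_prime {q : ℕ} (hq : q.Prime) (hR : Rogers q) : Rogers (q + 1) := by
  classical
  intro M T a hM hT hS
  have hne : ∀ m ∈ T, m ≠ 0 := fun m hm => (hS m hm).1
  have h1 := fibre_ineq hR M T a hM hT
  rw [K_succ_prime hq]
  refine h1.trans ?_
  rw [mul_comm ((1 - (q : ℝ)⁻¹)⁻¹), mul_assoc]
  refine mul_le_mul_of_nonneg_left ?_ (K_pos q).le
  set M' := dd q M with hM'
  have hM'pos : 0 < M' := dd_pos hM.ne'
  have hM'dvd : M' ∣ M := dd_dvd hM.ne'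
  have hmaps : ∀ x ∈ range M, x % M' ∈ range M' := fun x _ =>
    Finset.mem_range.mpr (Nat.mod_lt _ hM'pos)
  rw [← Finset.sum_fiberwise_of_maps_to hmaps]
  have hcov : (cov M T a : ℝ) = ∑ r ∈ range M',
      ((((range M).filter (fun x => ∃ d ∈ T, x ≡ a d [MOD d])).filter
        (fun x => x % M' = r)).card : ℝ) := by
    unfold cov
    rw [Finset.card_eq_sum_card_fiberwise (f := fun x => x % M') (t := range M')]
    · push_cast; rfl
    · intro x hx
      exact hmaps x (Finset.mem_filter.mp (Finset.mem_coe.mp hx)).1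
  rw [hcov, Finset.mul_sum]
  refine Finset.sum_le_sum fun r hr => ?_
  have hr' : r < M' := Finset.mem_range.mp hr
  have hseen : ∀ x, x % M' = r → seen q T a x = seen q T a r := by
    intro x hx
    have hxr : x ≡ r [MOD M'] := by
      unfold Nat.ModEq; rw [hx, Nat.mod_eq_of_lt hr']
    ext n
    simp only [mem_seen]
    constructor
    · rintro ⟨m, hm, h, hn⟩
      exact ⟨m, hm, ((hxr.of_dvd (dd_dvd_dd hM.ne' (hT m hm))).symm).trans h, hn⟩
    · rintro ⟨m, hm, h, hn⟩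
      exact ⟨m, hm, (hxr.of_dvd (dd_dvd_dd hM.ne' (hT m hm))).trans h, hn⟩
  have hL : ∑ x ∈ (range M).filter (fun x => x % M' = r), ∑ n ∈ seen q T a x, (n : ℝ)⁻¹
      = ((M : ℝ) / M') * ∑ n ∈ seen q T a r, (n : ℝ)⁻¹ := by
    rw [Finset.sum_congr rfl (g := fun _ => ∑ n ∈ seen q T a r, (n : ℝ)⁻¹)
      (fun x hx => by rw [hseen x (Finset.mem_filter.mp hx).2])]
    rw [Finset.sum_const, nsmul_eq_mul, ← card_class hM'dvd hM r]
    congr 3
    ext x
    simp only [Finset.mem_filter, Nat.ModEq, Nat.mod_eq_of_lt hr']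
  rw [hL]
  by_cases hemp : (seen q T a r).Nonempty
  swap
  · rw [Finset.not_nonempty_iff_eq_empty.mp hemp]
    simp only [Finset.sum_empty, mul_zero]
    have := one_sub_inv_pos hq
    positivity
  -- all seen numbers are powers of `q`
  have hpow : ∀ n ∈ seen q T a r, ∃ k, n = q ^ k := by
    intro n hn
    obtain ⟨m, hm, _, rfl⟩ := mem_seen.mp hn
    refine ⟨_, Nat.eq_prime_pow_of_unique_prime_dvd (nn_pos (hne m hm)).ne' ?_⟩
    intro p hp hpd
    have h1 := nn_rough (y := q) (hne m hm) p hp hpd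
    have h2 := Nat.mem_smoothNumbers'.mp (hS m hm) p hp (hpd.trans (nn_dvd (hne m hm)))
    omega
  set n0 := (seen q T a r).min' hemp with hn0
  have hn0mem : n0 ∈ seen q T a r := Finset.min'_mem _ _
  obtain ⟨e, he⟩ := hpow n0 hn0mem
  have hg := geom_bound hq e (seen q T a r) (by
    intro n hn
    obtain ⟨k, hk⟩ := hpow n hn
    refine ⟨k, ?_, hk⟩
    have : n0 ≤ n := Finset.min'_le _ _ hn
    rw [he, hk] at this
    exact (Nat.pow_le_pow_iff_right hq.one_lt).mp this)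
  obtain ⟨m, hm, hrm, hnm⟩ := mem_seen.mp hn0mem
  have hcop : Nat.Coprime M' n0 := by
    rw [← hnm]; exact coprime_of_smooth_rough (dd_smooth hM.ne') (nn_rough (hne m hm))
  obtain ⟨c, hc1, hc2⟩ := Nat.chineseRemainder hcop r (a m)
  have hdvd : M' * n0 ∣ M := by
    rw [← dd_mul_nn (y := q) hM.ne', ← hnm]
    exact Nat.mul_dvd_mul_left _ (nn_dvd_nn hM.ne' (hT m hm))
  have hsub : (range M).filter (fun x => x ≡ c [MOD M' * n0]) ⊆
      ((range M).filter (fun x => ∃ d ∈ T, x ≡ a d [MOD d])).filter (fun x => x % M' = r) := by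
    intro x hx
    have hx' := Finset.mem_filter.mp hx
    have hx1 : x ≡ r [MOD M'] := (hx'.2.of_mul_right _).trans hc1
    have hx2 : x ≡ a m [MOD n0] := (hx'.2.of_mul_left _).trans hc2
    refine Finset.mem_filter.mpr ⟨Finset.mem_filter.mpr ⟨hx'.1, m, hm, ?_⟩, ?_⟩
    · refine modEq_of_split (y := q) (hne m hm) ?_ (by rw [hnm]; exact hx2)
      exact (hx1.of_dvd (dd_dvd_dd hM.ne' (hT m hm))).trans hrm
    · have := hx1
      unfold Nat.ModEq at this
      rw [this, Nat.mod_eq_of_lt hr']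
  have hcard := Finset.card_le_card hsub
  have hcard' : (M : ℝ) / ((M' * n0 : ℕ) : ℝ) ≤
      ((((range M).filter (fun x => ∃ d ∈ T, x ≡ a d [MOD d])).filter
        (fun x => x % M' = r)).card : ℝ) := by
    rw [← card_class hdvd hM c]; exact_mod_cast hcard
  have hpos := one_sub_inv_pos hq
  calc (M : ℝ) / M' * ∑ n ∈ seen q T a r, (n : ℝ)⁻¹
      ≤ (M : ℝ) / M' * ((1 - (q : ℝ)⁻¹)⁻¹ * ((q : ℝ) ^ e)⁻¹) :=
        mul_le_mul_of_nonneg_left hg (by positivity)
    _ = (1 - (q : ℝ)⁻¹)⁻¹ * ((M : ℝ) / ((M' * n0 : ℕ) : ℝ)) := by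
        rw [he]; push_cast; rw [div_mul_eq_div_div, div_eq_mul_inv ((M : ℝ) / M')]; ring
    _ ≤ _ := mul_le_mul_of_nonneg_left hcard' (by positivity)

lemma rogers (y : ℕ) : Rogers y := by
  induction y with
  | zero =>
    classical
    intro M T a hM hT hS
    have hsub : T ⊆ {1} := by
      intro d hd
      have := hS d hd
      rw [Nat.smoothNumbers_zero] at this
      simpa using this
    have hK : K 0 = 1 := by simp [K]
    rw [hK, one_mul]
    rcases Finset.subset_singleton_iff.mp hsub with h | h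
    · simp [h]
    · subst h
      unfold cov
      simp only [Finset.sum_singleton, Nat.cast_one, div_one, Finset.mem_singleton,
        exists_eq_left]
      rw [Finset.filter_true_of_mem (fun x _ => Nat.modEq_one)]
      simp
  | succ y ih =>
    by_cases hy : y.Prime
    · exact rogers_succ_prime hy ih
    · intro M T a hM hT hS
      rw [K_succ_not_prime hy]
      rw [Nat.smoothNumbers_succ hy] at hS
      exact ih M T a hM hT hS

end Pool.Agent.Work.MP_cda74c_nt
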