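import Pool.Agent.Work.MP_cda74c_nt.Basic
import Mathlib.NumberTheory.EulerProduct.Basic
import Mathlib.NumberTheory.ArithmeticFunction.Misc
import Mathlib.NumberTheory.Primorial
import Mathlib.Analysis.SpecialFunctions.Exp

/-!
Upper bound for the weight of a disjoint family of residue classes with distinct moduli, all of
which have a large prime factor (a tree argument plus Rankin's trick).
-/

namespace Pool.Agent.Work.MP_cda74c_nt

open Finset

/-- number of prime factors with multiplicity -/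
abbrev Om (n : ℕ) : ℕ := ArithmeticFunction.cardFactors n

lemma sum_div_prime {p : ℕ} (_hp : p.Prime) (H : Finset ℕ) (hH : ∀ n ∈ H, p ∣ n) :
    ∑ n ∈ H, (n : ℝ)⁻¹ = (p : ℝ)⁻¹ * ∑ n ∈ H.image (fun n => n / p), (n : ℝ)⁻¹ := by
  have hinj : Set.InjOn (fun n => n / p) (H : Set ℕ) := by
    intro n hn n' hn' h
    simp only at h
    rw [← Nat.mul_div_cancel' (hH n (Finset.mem_coe.mp hn)),
      ← Nat.mul_div_cancel' (hH n' (Finset.mem_coe.mp hn')), h]
  rw [Finset.sum_image hinj, Finset.mul_sum]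
  refine Finset.sum_congr rfl fun n hn => ?_
  rw [← mul_inv]
  congr 1
  exact_mod_cast (Nat.mul_div_cancel' (hH n hn)).symm

lemma tree (z w : ℕ) (S : ℝ) (hz : 0 < z)
    (hS : ∀ N : Finset ℕ, (∀ n ∈ N, n ∈ w.smoothNumbers) → ∑ n ∈ N, (n : ℝ)⁻¹ ≤ S) (j : ℕ) :
    ∀ (H : Finset ℕ) (b : ℕ → ℕ), Disj H b → (∀ n ∈ H, n ∈ w.smoothNumbers) →
      (∀ n ∈ H, ∃ p, p.Prime ∧ p ∣ n ∧ z ≤ p) → (∀ n ∈ H, Om n ≤ j) →
      ∑ n ∈ H, (n : ℝ)⁻¹ ≤ (j.factorial : ℝ) * S / z := by
  classical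
  have hS0 : 0 ≤ S := by simpa using hS ∅ (by simp)
  have hzr : (0 : ℝ) < z := by exact_mod_cast hz
  induction j with
  | zero =>
    intro H b _ hsm hp hΩ
    have : H = ∅ := by
      rw [Finset.eq_empty_iff_forall_notMem]
      intro n hn
      obtain ⟨p, hp1, ⟨k, hk⟩, _⟩ := hp n hn
      have h0 := hΩ n hn
      have hn0 : n ≠ 0 := (hsm n hn).1
      have hk0 : k ≠ 0 := by rintro rfl; exact hn0 (by simpa using hk)
      unfold Om at h0
      rw [hk, ArithmeticFunction.cardFactors_mul hp1.ne_zero hk0,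
        ArithmeticFunction.cardFactors_apply_prime hp1] at h0
      omega
    rw [this]
    simp only [Finset.sum_empty]
    positivity
  | succ j ih =>
    intro H b hD hsm hp hΩ
    rcases H.eq_empty_or_nonempty with rfl | ⟨n₀, hn₀⟩
    · simp only [Finset.sum_empty]
      positivity
    have hn₀0 : n₀ ≠ 0 := (hsm n₀ hn₀).1
    have hcover : ∀ n ∈ H, ∃ p ∈ n₀.primeFactors, p ∣ n := by
      intro n hn
      by_cases hne : n = n₀
      · obtain ⟨p, hp1, hp2, _⟩ := hp n hn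
        exact ⟨p, Nat.mem_primeFactors.mpr ⟨hp1, hne ▸ hp2, hn₀0⟩, hp2⟩
      · have hnc : ¬ Nat.Coprime n n₀ := by
          intro hc
          obtain ⟨u, hu1, hu2⟩ := Nat.chineseRemainder hc (b n) (b n₀)
          exact hD n hn n₀ hn₀ hne u hu1 hu2
        obtain ⟨p, hp1, hp2⟩ := Nat.exists_prime_and_dvd hnc
        exact ⟨p, Nat.mem_primeFactors.mpr ⟨hp1, hp2.trans (Nat.gcd_dvd_right _ _), hn₀0⟩,
          hp2.trans (Nat.gcd_dvd_left _ _)⟩
    have hle : ∑ n ∈ H, (n : ℝ)⁻¹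
        ≤ ∑ p ∈ n₀.primeFactors, ∑ n ∈ H.filter (fun n => p ∣ n), (n : ℝ)⁻¹ := by
      have : ∑ p ∈ n₀.primeFactors, ∑ n ∈ H.filter (fun n => p ∣ n), (n : ℝ)⁻¹
          = ∑ n ∈ H, ∑ p ∈ n₀.primeFactors, if p ∣ n then (n : ℝ)⁻¹ else 0 := by
        rw [Finset.sum_comm]
        exact Finset.sum_congr rfl fun p _ => Finset.sum_filter _ _
      rw [this]
      refine Finset.sum_le_sum fun n hn => ?_
      obtain ⟨p, hp1, hp2⟩ := hcover n hn
      have := Finset.single_le_sum (f := fun p => if p ∣ n then (n : ℝ)⁻¹ else 0)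
        (fun q _ => by split_ifs <;> positivity) hp1
      simpa [hp2] using this
    have heach : ∀ p ∈ n₀.primeFactors,
        ∑ n ∈ H.filter (fun n => p ∣ n), (n : ℝ)⁻¹ ≤ (j.factorial : ℝ) * S / z := by
      intro p hpm
      have hpp : p.Prime := Nat.prime_of_mem_primeFactors hpm
      have hpr : (0 : ℝ) < p := by exact_mod_cast hpp.pos
      by_cases hpz : z ≤ p
      · rw [sum_div_prime hpp _ (fun n hn => (Finset.mem_filter.mp hn).2)]
        have h1 := hS ((H.filter (fun n => p ∣ n)).image (fun n => n / p)) (by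
          intro n' hn'
          obtain ⟨n, hn, rfl⟩ := Finset.mem_image.mp hn'
          have hn1 := Finset.mem_filter.mp hn
          exact Nat.mem_smoothNumbers_of_dvd (hsm n hn1.1) (Nat.div_dvd_of_dvd hn1.2))
        have h2 : (p : ℝ)⁻¹ ≤ (z : ℝ)⁻¹ := inv_anti₀ hzr (by exact_mod_cast hpz)
        have h3 : (1 : ℝ) ≤ j.factorial := by exact_mod_cast j.factorial_pos
        calc (p : ℝ)⁻¹ * _ ≤ (p : ℝ)⁻¹ * S := mul_le_mul_of_nonneg_left h1 (by positivity)
          _ ≤ (z : ℝ)⁻¹ * S := mul_le_mul_of_nonneg_right h2 hS0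
          _ = 1 * S / z := by ring
          _ ≤ (j.factorial : ℝ) * S / z := by gcongr
      · have hmaps : ∀ n ∈ H.filter (fun n => p ∣ n), b n % p ∈ range p := fun n _ =>
          Finset.mem_range.mpr (Nat.mod_lt _ hpp.pos)
        rw [← Finset.sum_fiberwise_of_maps_to hmaps]
        have hfib : ∀ c ∈ range p,
            ∑ n ∈ (H.filter (fun n => p ∣ n)).filter (fun n => b n % p = c), (n : ℝ)⁻¹
              ≤ (p : ℝ)⁻¹ * ((j.factorial : ℝ) * S / z) := by
          intro c _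
          rw [sum_div_prime hpp _
            (fun n hn => (Finset.mem_filter.mp (Finset.mem_filter.mp hn).1).2)]
          refine mul_le_mul_of_nonneg_left ?_ (by positivity)
          have hmem : ∀ n' ∈ ((H.filter (fun n => p ∣ n)).filter (fun n => b n % p = c)).image
              (fun n => n / p), p * n' ∈ H ∧ b (p * n') % p = c := by
            intro n' hn'
            obtain ⟨n, hn, rfl⟩ := Finset.mem_image.mp hn'
            have hn1 := Finset.mem_filter.mp hn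
            have hn2 := Finset.mem_filter.mp hn1.1
            rw [Nat.mul_div_cancel' hn2.2]
            exact ⟨hn2.1, hn1.2⟩
          refine ih _ (fun n' => b (p * n') / p) ?_ ?_ ?_ ?_
          · intro n1 h1 n2 h2 hne x hx1 hx2
            obtain ⟨h1a, h1b⟩ := hmem n1 h1
            obtain ⟨h2a, h2b⟩ := hmem n2 h2
            refine hD (p * n1) h1a (p * n2) h2a
              (fun h => hne (Nat.eq_of_mul_eq_mul_left hpp.pos h)) (p * x + c) ?_ ?_
            · have := (hx1.mul_left' p).add_right c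
              rwa [← h1b, Nat.div_add_mod, h1b] at this
            · have := (hx2.mul_left' p).add_right c
              rwa [← h2b, Nat.div_add_mod, h2b] at this
          · intro n' hn'
            exact Nat.mem_smoothNumbers_of_dvd (hsm _ (hmem n' hn').1) (Dvd.intro_left _ rfl)
          · intro n' hn'
            obtain ⟨r, hr1, hr2, hr3⟩ := hp _ (hmem n' hn').1
            refine ⟨r, hr1, ?_, hr3⟩
            rcases (Nat.Prime.dvd_mul hr1).mp hr2 with h | h
            · have := (Nat.prime_dvd_prime_iff_eq hr1 hpp).mp h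
              omega
            · exact h
          · intro n' hn'
            have h0 := hΩ _ (hmem n' hn').1
            have hn0 : p * n' ≠ 0 := (hsm _ (hmem n' hn').1).1
            have hk0 : n' ≠ 0 := by rintro rfl; exact hn0 (by simp)
            unfold Om at h0 ⊢
            rw [ArithmeticFunction.cardFactors_mul hpp.ne_zero hk0,
              ArithmeticFunction.cardFactors_apply_prime hpp] at h0
            omega
        refine (Finset.sum_le_sum hfib).trans (le_of_eq ?_)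
        rw [Finset.sum_const, Finset.card_range, nsmul_eq_mul, ← mul_assoc,
          mul_inv_cancel₀ hpr.ne', one_mul]
    have hcard : n₀.primeFactors.card ≤ j + 1 := by
      refine le_trans ?_ (hΩ n₀ hn₀)
      unfold Om
      rw [ArithmeticFunction.cardFactors_apply]
      exact List.toFinset_card_le _
    refine hle.trans ((Finset.sum_le_sum heach).trans ?_)
    rw [Finset.sum_const, nsmul_eq_mul, Nat.factorial_succ]
    have : (n₀.primeFactors.card : ℝ) ≤ (j + 1 : ℕ) := by exact_mod_cast hcard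
    push_cast at this ⊢
    calc (n₀.primeFactors.card : ℝ) * ((j.factorial : ℝ) * S / z)
        ≤ (j + 1) * ((j.factorial : ℝ) * S / z) :=
          mul_le_mul_of_nonneg_right this (by positivity)
      _ = _ := by ring

/-- the completely multiplicative function `t ^ Ω(n) / n` -/
noncomputable def rk (t : ℝ) : ℕ →* ℝ where
  toFun n := t ^ Om n * (n : ℝ)⁻¹
  map_one' := by simp [Om]
  map_mul' m n := by
    by_cases hm : m = 0
    · simp [hm]
    by_cases hn : n = 0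
    · simp [hn]
    unfold Om
    rw [ArithmeticFunction.cardFactors_mul hm hn]
    push_cast
    rw [pow_add, mul_inv]; ring

lemma rk_apply (t : ℝ) (n : ℕ) : rk t n = t ^ Om n * (n : ℝ)⁻¹ := rfl

lemma rk_prime (t : ℝ) {p : ℕ} (hp : p.Prime) : rk t p = t * (p : ℝ)⁻¹ := by
  rw [rk_apply]; unfold Om; rw [ArithmeticFunction.cardFactors_apply_prime hp, pow_one]

lemma inv_one_sub_le_exp {u : ℝ} (h0 : 0 ≤ u) (h1 : u ≤ 3 / 4) : (1 - u)⁻¹ ≤ Real.exp (4 * u) := by
  have h2 : 4 * u + 1 ≤ Real.exp (4 * u) := Real.add_one_le_exp _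
  refine le_trans ?_ h2
  rw [inv_le_iff_one_le_mul₀ (by linarith)]
  nlinarith

lemma prod_le_exp {t : ℝ} (h0 : 0 ≤ t) (h1 : t ≤ 3 / 2) (w : ℕ) :
    ∏ p ∈ w.primesBelow, (1 - t * (p : ℝ)⁻¹)⁻¹
      ≤ Real.exp (6 * ∑ p ∈ w.primesBelow, (p : ℝ)⁻¹) := by
  rw [Finset.mul_sum, Real.exp_sum]
  refine Finset.prod_le_prod (fun p hp => ?_) (fun p hp => ?_)
  all_goals
    have hp2 : (2 : ℝ) ≤ p := by exact_mod_cast (Nat.prime_of_mem_primesBelow hp).two_le
    have hi : (p : ℝ)⁻¹ ≤ 2⁻¹ := inv_anti₀ (by norm_num) hp2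
    have hi0 : (0 : ℝ) ≤ (p : ℝ)⁻¹ := by positivity
    have hu : t * (p : ℝ)⁻¹ ≤ 3 / 4 := by nlinarith
  · exact inv_nonneg.mpr (by linarith)
  · refine (inv_one_sub_le_exp (by positivity) hu).trans (Real.exp_le_exp.mpr ?_)
    nlinarith

lemma rankin {t : ℝ} (h0 : 0 ≤ t) (h1 : t ≤ 3 / 2) (w : ℕ) (N : Finset ℕ)
    (hN : ∀ n ∈ N, n ∈ w.smoothNumbers) :
    ∑ n ∈ N, t ^ Om n * (n : ℝ)⁻¹ ≤ Real.exp (6 * ∑ p ∈ w.primesBelow, (p : ℝ)⁻¹) := by
  classical
  have hs := (EulerProduct.summable_and_hasSum_smoothNumbers_prod_primesBelow_geometric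
    (f := rk t) (fun {p} hp => by
      rw [rk_prime t hp]
      have hp2 : (2 : ℝ) ≤ p := by exact_mod_cast hp.two_le
      have hi : (p : ℝ)⁻¹ ≤ 2⁻¹ := inv_anti₀ (by norm_num) hp2
      have hi0 : (0 : ℝ) ≤ (p : ℝ)⁻¹ := by positivity
      rw [Real.norm_eq_abs, abs_of_nonneg (by positivity)]
      nlinarith) w).2
  have h := sum_le_hasSum (N.subtype (fun n => n ∈ w.smoothNumbers))
    (fun i _ => by rw [rk_apply]; positivity) hs
  rw [Finset.sum_subtype_of_mem (f := fun n => rk t n) hN] at h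
  refine le_trans (le_of_eq ?_) (h.trans ?_)
  · exact Finset.sum_congr rfl fun n _ => (rk_apply t n).symm
  · refine le_trans (le_of_eq ?_) (prod_le_exp h0 h1 w)
    exact Finset.prod_congr rfl fun p hp => by
      rw [rk_prime t (Nat.prime_of_mem_primesBelow hp)]

lemma block_primes (r : ℕ) :
    ∑ p ∈ Nat.primesBelow (2 ^ (r + 1)), (p : ℝ)⁻¹
      ≤ ∑ p ∈ Nat.primesBelow (2 ^ r), (p : ℝ)⁻¹ + 4 * (r : ℝ)⁻¹ := by
  rcases Nat.eq_zero_or_pos r with rfl | hr
  · simp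
  set P := (Nat.primesBelow (2 ^ (r + 1))).filter (fun p => ¬ p < 2 ^ r) with hP
  have hsplit : ∑ p ∈ Nat.primesBelow (2 ^ (r + 1)), (p : ℝ)⁻¹
      = ∑ p ∈ Nat.primesBelow (2 ^ r), (p : ℝ)⁻¹ + ∑ p ∈ P, (p : ℝ)⁻¹ := by
    rw [← Finset.sum_filter_add_sum_filter_not (Nat.primesBelow (2 ^ (r + 1))) (fun p => p < 2 ^ r)]
    congr 2
    ext p
    simp only [Finset.mem_filter, Nat.mem_primesBelow]
    constructor
    · exact fun h => ⟨h.2, h.1.2⟩
    · intro h
      refine ⟨⟨h.1.trans_le (Nat.pow_le_pow_right (by norm_num) (Nat.le_succ r)), h.2⟩, h.1⟩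
  rw [hsplit]
  have h1 : (2 ^ r) ^ P.card ≤ ∏ p ∈ P, p :=
    Finset.pow_card_le_prod _ _ _ fun p hp => not_lt.mp (Finset.mem_filter.mp hp).2
  have h2 : ∏ p ∈ P, p ≤ primorial (2 ^ (r + 1)) := by
    rw [primorial_eq_prod_primesLE]
    refine Finset.prod_le_prod_of_subset_of_one_le' ?_ ?_
    · intro p hp
      have := Nat.mem_primesBelow.mp (Finset.mem_filter.mp hp).1
      exact Nat.mem_primesLE.mpr ⟨this.1.le, this.2⟩
    · intro p hp _
      exact (Nat.mem_primesLE.mp hp).2.one_le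
  have h3 := (h1.trans h2).trans (primorial_le_four_pow _)
  rw [show (4 : ℕ) = 2 ^ 2 from rfl, ← pow_mul, ← pow_mul] at h3
  have h4 : r * P.card ≤ 2 * 2 ^ (r + 1) := (Nat.pow_le_pow_iff_right (by norm_num)).mp h3
  have h5 : ∑ p ∈ P, (p : ℝ)⁻¹ ≤ P.card * ((2 : ℝ) ^ r)⁻¹ := by
    rw [← nsmul_eq_mul]
    refine Finset.sum_le_card_nsmul _ _ _ fun p hp => ?_
    refine inv_anti₀ (by positivity) ?_
    exact_mod_cast not_lt.mp (Finset.mem_filter.mp hp).2
  have h6 : (P.card : ℝ) * ((2 : ℝ) ^ r)⁻¹ ≤ 4 * (r : ℝ)⁻¹ := by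
    have hr' : (0 : ℝ) < r := by exact_mod_cast hr
    rw [← div_eq_mul_inv, ← div_eq_mul_inv, div_le_div_iff₀ (by positivity) hr']
    have : ((r * P.card : ℕ) : ℝ) ≤ ((2 * 2 ^ (r + 1) : ℕ) : ℝ) := by exact_mod_cast h4
    push_cast at this
    rw [pow_succ] at this
    linarith
  linarith

lemma sum_primes_le (R : ℕ) :
    ∑ p ∈ Nat.primesBelow (2 ^ R), (p : ℝ)⁻¹ ≤ 4 * ∑ r ∈ range R, (r : ℝ)⁻¹ := by
  induction R with
  | zero => simp
  | succ R ih =>
    rw [Finset.sum_range_succ, mul_add]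
    exact (block_primes R).trans (by linarith)

lemma harmonic_le (i : ℕ) : ∑ r ∈ range (2 ^ i), (r : ℝ)⁻¹ ≤ i + 1 := by
  induction i with
  | zero => simp
  | succ i ih =>
    rw [pow_succ, mul_two, Finset.sum_range_add]
    have : ∑ x ∈ range (2 ^ i), ((2 ^ i + x : ℕ) : ℝ)⁻¹ ≤ 1 := by
      refine (Finset.sum_le_card_nsmul _ _ (((2 : ℝ) ^ i)⁻¹) fun x _ => ?_).trans ?_
      · refine inv_anti₀ (by positivity) ?_
        push_cast
        have : (0 : ℝ) ≤ x := by positivity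
        linarith
      · rw [Finset.card_range, nsmul_eq_mul]
        push_cast
        rw [mul_inv_cancel₀ (by positivity)]
    push_cast at this ⊢
    linarith

/-- `zz i = 2 ^ (2 ^ i)` -/
def zz (i : ℕ) : ℕ := 2 ^ (2 ^ i)

lemma exp_bound (i : ℕ) :
    Real.exp (6 * ∑ p ∈ (zz i).primesBelow, (p : ℝ)⁻¹) ≤ Real.exp 24 ^ (i + 1) := by
  rw [← Real.exp_nat_mul]
  refine Real.exp_le_exp.mpr ?_
  have h1 := sum_primes_le (2 ^ i)
  have h2 := harmonic_le i
  unfold zz
  push_cast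
  linarith

lemma K_zz_le (i : ℕ) : K (zz i) ≤ Real.exp 24 ^ (i + 1) := by
  refine le_trans ?_ (exp_bound i)
  have := prod_le_exp (t := 1) (by norm_num) (by norm_num) (zz i)
  simpa [K] using this

lemma block_bound (i k : ℕ) (N : Finset ℕ) (b : ℕ → ℕ) (hD : Disj N b)
    (hsm : ∀ n ∈ N, n ∈ (zz (i + 1)).smoothNumbers)
    (hp : ∀ n ∈ N, ∃ p, p.Prime ∧ p ∣ n ∧ zz i ≤ p) :
    ∑ n ∈ N, (n : ℝ)⁻¹ ≤ (k.factorial : ℝ) * Real.exp 24 ^ (i + 2) / zz i
      + (2 / 3 : ℝ) ^ k * Real.exp 24 ^ (i + 2) := by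
  rw [← Finset.sum_filter_add_sum_filter_not N (fun n => Om n ≤ k)]
  refine add_le_add ?_ ?_
  · refine tree (zz i) (zz (i + 1)) _ (by unfold zz; positivity) ?_ k _ b
      (hD.mono (Finset.filter_subset _ _)) (fun n hn => hsm n (Finset.mem_filter.mp hn).1)
      (fun n hn => hp n (Finset.mem_filter.mp hn).1) (fun n hn => (Finset.mem_filter.mp hn).2)
    intro N' hN'
    have := (rankin (t := 1) (by norm_num) (by norm_num) _ N' hN').trans (exp_bound (i + 1))
    simpa using this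
  · have h := (rankin (t := 3 / 2) (by norm_num) (by norm_num) _
      (N.filter (fun n => ¬ Om n ≤ k))
      (fun n hn => hsm n (Finset.mem_filter.mp hn).1)).trans (exp_bound (i + 1))
    refine le_trans ?_ (mul_le_mul_of_nonneg_left h (by positivity))
    rw [Finset.mul_sum]
    refine Finset.sum_le_sum fun n hn => ?_
    have hk : k ≤ Om n := (not_le.mp (Finset.mem_filter.mp hn).2).le
    rw [← mul_assoc]
    refine le_mul_of_one_le_left (by positivity) ?_
    have h1 : (3 / 2 : ℝ) ^ k ≤ (3 / 2 : ℝ) ^ Om n := pow_le_pow_right₀ (by norm_num) hk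
    calc (1 : ℝ) = (2 / 3 : ℝ) ^ k * (3 / 2 : ℝ) ^ k := by rw [← mul_pow]; norm_num
      _ ≤ _ := mul_le_mul_of_nonneg_left h1 (by positivity)

lemma eventually_small : ∃ j₀ : ℕ, ∀ i, j₀ ≤ i → ∃ k : ℕ,
    Real.exp 24 ^ (i + 1) * ((k.factorial : ℝ) * Real.exp 24 ^ (i + 2) / zz i
      + (2 / 3 : ℝ) ^ k * Real.exp 24 ^ (i + 2)) ≤ (1 / 2 : ℝ) ^ (i + 2) := by
  set A := Real.exp 24 with hA
  have hA1 : 1 ≤ A := Real.one_le_exp (by norm_num)
  obtain ⟨c, hc⟩ : ∃ c : ℕ, (2 / 3 : ℝ) ^ c < 1 / (4 * A ^ 2) :=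
    exists_pow_lt_of_lt_one (by positivity) (by norm_num)
  obtain ⟨D, hD⟩ : ∃ D : ℕ, A < 2 ^ D := pow_unbounded_of_one_lt A (by norm_num)
  set C : ℕ := 2 * D + c ^ 2 + 2 with hC
  have ht := (tendsto_pow_const_div_const_pow_of_one_lt 2 (r := (2 : ℝ)) (by norm_num)).comp
    (Filter.tendsto_add_atTop_nat 2)
  have hev := ht.eventually (gt_mem_nhds (show (0 : ℝ) < 1 / (4 * C + 1) by positivity))
  obtain ⟨j₀, hj₀⟩ := Filter.eventually_atTop.mp hev
  refine ⟨j₀, fun i hi => ⟨c * (i + 2), ?_⟩⟩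
  have hi' := hj₀ i hi
  simp only [Function.comp] at hi'
  have hpoly : C * (i + 2) ^ 2 ≤ 2 ^ i := by
    rw [div_lt_div_iff₀ (by positivity) (by positivity)] at hi'
    have : ((C * (i + 2) ^ 2 : ℕ) : ℝ) ≤ ((2 ^ i : ℕ) : ℝ) := by
      push_cast at hi' ⊢
      rw [pow_add] at hi'
      have : (0 : ℝ) ≤ ((i : ℝ) + 2) ^ 2 := by positivity
      nlinarith
    exact_mod_cast this
  have hAA : A ^ (i + 1) * A ^ (i + 2) ≤ (A ^ 2) ^ (i + 2) := by
    rw [← pow_add, ← pow_mul]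
    exact pow_le_pow_right₀ hA1 (by omega)
  have hhalf : (1 / 4 : ℝ) ^ (i + 2) ≤ (1 / 2) * (1 / 2 : ℝ) ^ (i + 2) := by
    rw [show (1 / 4 : ℝ) = (1 / 2) * (1 / 2) by norm_num, mul_pow]
    refine mul_le_mul_of_nonneg_right ?_ (by positivity)
    calc (1 / 2 : ℝ) ^ (i + 2) ≤ (1 / 2 : ℝ) ^ 1 :=
          pow_le_pow_of_le_one (by norm_num) (by norm_num) (by omega)
      _ = 1 / 2 := pow_one _
  have hsecond : A ^ (i + 1) * ((2 / 3 : ℝ) ^ (c * (i + 2)) * A ^ (i + 2))
      ≤ (1 / 4 : ℝ) ^ (i + 2) := by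
    calc A ^ (i + 1) * ((2 / 3 : ℝ) ^ (c * (i + 2)) * A ^ (i + 2))
        = (2 / 3 : ℝ) ^ (c * (i + 2)) * (A ^ (i + 1) * A ^ (i + 2)) := by ring
      _ ≤ (2 / 3 : ℝ) ^ (c * (i + 2)) * (A ^ 2) ^ (i + 2) :=
          mul_le_mul_of_nonneg_left hAA (by positivity)
      _ = ((2 / 3 : ℝ) ^ c * A ^ 2) ^ (i + 2) := by rw [mul_pow, pow_mul]
      _ ≤ (1 / 4 : ℝ) ^ (i + 2) := by
          refine pow_le_pow_left₀ (by positivity) ?_ _
          rw [lt_div_iff₀ (by positivity)] at hc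
          linarith
  have hfirst : A ^ (i + 1) * (((c * (i + 2)).factorial : ℝ) * A ^ (i + 2) / zz i)
      ≤ (1 / 4 : ℝ) ^ (i + 2) := by
    have hf : (c * (i + 2)).factorial ≤ 2 ^ ((c * (i + 2)) ^ 2) := by
      refine (Nat.factorial_le_pow _).trans ?_
      rw [sq, pow_mul 2]
      exact Nat.pow_le_pow_left (Nat.lt_two_pow_self).le _
    have hf' : ((c * (i + 2)).factorial : ℝ) ≤ 2 ^ ((c * (i + 2)) ^ 2) := by exact_mod_cast hf
    have hA2 : (A ^ 2) ^ (i + 2) ≤ (2 : ℝ) ^ (2 * D * (i + 2)) := by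
      rw [pow_mul (2 : ℝ) (2 * D)]
      refine pow_le_pow_left₀ (by positivity) ?_ _
      rw [mul_comm 2 D, pow_mul]
      exact pow_le_pow_left₀ (by positivity) hD.le _
    have hz : ((zz i : ℕ) : ℝ) = 2 ^ (2 ^ i) := by unfold zz; push_cast; rfl
    have hexp : (c * (i + 2)) ^ 2 + 2 * D * (i + 2) + 2 * (i + 2) ≤ 2 ^ i := by
      refine le_trans ?_ hpoly
      rw [hC]
      have : i + 2 ≤ (i + 2) ^ 2 := by nlinarith
      nlinarith [Nat.mul_le_mul_left (2 * D) this]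
    have h4 : (1 / 4 : ℝ) ^ (i + 2) = ((2 : ℝ) ^ (2 * (i + 2)))⁻¹ := by
      rw [pow_mul, ← inv_pow]; norm_num
    rw [hz, h4, ← mul_div_assoc, div_le_iff₀ (by positivity), ← div_eq_inv_mul,
      le_div_iff₀ (by positivity)]
    calc A ^ (i + 1) * (((c * (i + 2)).factorial : ℝ) * A ^ (i + 2)) * 2 ^ (2 * (i + 2))
        = ((c * (i + 2)).factorial : ℝ) * (A ^ (i + 1) * A ^ (i + 2)) * 2 ^ (2 * (i + 2)) := by
          ring
      _ ≤ 2 ^ ((c * (i + 2)) ^ 2) * 2 ^ (2 * D * (i + 2)) * 2 ^ (2 * (i + 2)) := by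
          gcongr
          exact hAA.trans hA2
      _ = 2 ^ ((c * (i + 2)) ^ 2 + 2 * D * (i + 2) + 2 * (i + 2)) := by rw [pow_add, pow_add]
      _ ≤ 2 ^ (2 ^ i) := pow_le_pow_right₀ (by norm_num) hexp
  rw [mul_add]
  linarith

lemma zz_mono {i j : ℕ} (h : i ≤ j) : zz i ≤ zz j :=
  Nat.pow_le_pow_right (by norm_num) (Nat.pow_le_pow_right (by norm_num) h)

lemma lt_zz (i : ℕ) : i < zz i :=
  Nat.lt_two_pow_self.trans Nat.lt_two_pow_self

/-- the key estimate `K y * δ(y) ≤ 1/2` for a suitable `y`. -/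
lemma exists_good_level : ∃ y : ℕ, ∀ (N : Finset ℕ) (b : ℕ → ℕ),
    (∀ n ∈ N, n ≠ 0 ∧ ∃ p, p.Prime ∧ p ∣ n ∧ y ≤ p) → Disj N b →
    ∑ n ∈ N, (n : ℝ)⁻¹ ≤ (1 / 2) / K y := by
  obtain ⟨j, hj⟩ := eventually_small
  refine ⟨zz j, ?_⟩
  set A := Real.exp 24 with hA
  have hA1 : 1 ≤ A := Real.one_le_exp (by norm_num)
  have key : ∀ R : ℕ, ∀ (N : Finset ℕ) (b : ℕ → ℕ),
      (∀ n ∈ N, ∃ p, p.Prime ∧ p ∣ n ∧ zz j ≤ p) → Disj N b →
      (∀ n ∈ N, n ∈ (zz (j + R)).smoothNumbers) →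
      A ^ (j + 1) * ∑ n ∈ N, (n : ℝ)⁻¹ ≤ 1 / 2 - (1 / 2 : ℝ) ^ (R + 1) := by
    intro R
    induction R with
    | zero =>
      intro N b hp _ hsm
      have : N = ∅ := by
        rw [Finset.eq_empty_iff_forall_notMem]
        intro n hn
        obtain ⟨p, h1, h2, h3⟩ := hp n hn
        have := Nat.mem_smoothNumbers'.mp (hsm n hn) p h1 h2
        simp only [add_zero] at this
        omega
      rw [this]; norm_num
    | succ R ih =>
      intro N b hp hD hsm
      classical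
      rw [← Finset.sum_filter_add_sum_filter_not N (fun n => n ∈ (zz (j + R)).smoothNumbers),
        mul_add]
      have h1 := ih (N.filter (fun n => n ∈ (zz (j + R)).smoothNumbers)) b
        (fun n hn => hp n (Finset.mem_filter.mp hn).1) (hD.mono (Finset.filter_subset _ _))
        (fun n hn => (Finset.mem_filter.mp hn).2)
      obtain ⟨k, hk⟩ := hj (j + R) (by omega)
      have h2 := block_bound (j + R) k (N.filter (fun n => ¬ n ∈ (zz (j + R)).smoothNumbers)) b
        (hD.mono (Finset.filter_subset _ _)) (fun n hn => hsm n (Finset.mem_filter.mp hn).1)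
        (fun n hn => by
          have := (Finset.mem_filter.mp hn).2
          rw [Nat.mem_smoothNumbers'] at this
          push Not at this
          exact this)
      have h3 : A ^ (j + 1) ≤ A ^ (j + R + 1) := pow_le_pow_right₀ hA1 (by omega)
      have h4 : (1 / 2 : ℝ) ^ (j + R + 2) ≤ (1 / 2 : ℝ) ^ (R + 1 + 1) :=
        pow_le_pow_of_le_one (by norm_num) (by norm_num) (by omega)
      have h5 : A ^ (j + 1) * ∑ n ∈ N.filter (fun n => ¬ n ∈ (zz (j + R)).smoothNumbers),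
          (n : ℝ)⁻¹ ≤ (1 / 2 : ℝ) ^ (R + 1 + 1) := by
        refine le_trans ?_ (hk.trans h4)
        exact mul_le_mul h3 h2 (Finset.sum_nonneg fun _ _ => by positivity) (by positivity)
      rw [pow_succ (1 / 2 : ℝ) (R + 1)] at h5 ⊢
      linarith
  intro N b hN hD
  have h := key (N.sup id) N b (fun n hn => (hN n hn).2) hD (fun n hn => by
    refine Nat.mem_smoothNumbers_of_lt (Nat.pos_of_ne_zero (hN n hn).1) ?_
    have h1 : n ≤ N.sup id := Finset.le_sup (f := id) hn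
    have h2 := lt_zz (j + N.sup id)
    omega)
  rw [le_div_iff₀ (K_pos _)]
  have h1 : (0 : ℝ) ≤ (1 / 2 : ℝ) ^ (N.sup id + 1) := by positivity
  have h2 := mul_le_mul_of_nonneg_left (K_zz_le j)
    (Finset.sum_nonneg (s := N) (f := fun n : ℕ => (n : ℝ)⁻¹) fun _ _ => by positivity)
  linarith

end Pool.Agent.Work.MP_cda74c_nt
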