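import Pool.Agent.Work.MP_cda74c_nt.Main
import Pool.Agent.Work.MP_cda74c_nt.Tree

/-!
The Fraenkel-Simpson conjecture.
-/

namespace Pool.Agent.Work.MP_cda74c_nt

open Finset

lemma nn_ne_one {y m p : ℕ} (hm : m ≠ 0) (hp : p.Prime) (hpm : p ∣ m) (hy : y ≤ p) :
    p ∣ nn y m := by
  rw [← dd_mul_nn (y := y) hm] at hpm
  rcases (Nat.Prime.dvd_mul hp).mp hpm with h | h
  · have := Nat.mem_smoothNumbers'.mp (dd_smooth (y := y) hm) p hp h
    omega
  · exact h

lemma no_full_sum {I : Type*} (a : I → ℤ) (m : I → ℕ) (hm : ∀ i, 2 ≤ m i)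
    (hinj : Function.Injective m)
    (hdisj : ∀ n : ℤ, 1 ≤ n → ∀ i j, n ≡ a i [ZMOD m i] → n ≡ a j [ZMOD m j] → i = j)
    (hsum : HasSum (fun i => (1 : ℝ) / m i) 1)
    (y : ℕ) (Good : ℕ → Prop) (δ θ : ℝ) (hθ : θ < 1) (hKδ : K y * δ ≤ θ)
    (hδ : ∀ (N : Finset ℕ) (b : ℕ → ℕ), (∀ n ∈ N, Good n) → Disj N b →
      ∑ n ∈ N, (n : ℝ)⁻¹ ≤ δ)
    (hG : ∀ i, nn y (m i) ≠ 1 → Good (nn y (m i)))
    (i₀ : I) (hi₀ : nn y (m i₀) ≠ 1) : False := by
  classical
  set b : ℕ → ℕ := Function.extend m (fun i => (a i % m i).toNat) (fun _ => 0) with hb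
  have hbm : ∀ i, ((b (m i) : ℕ) : ℤ) ≡ a i [ZMOD m i] := by
    intro i
    have h0 : (0 : ℤ) < m i := by have := hm i; omega
    rw [hb, hinj.extend_apply, Int.toNat_of_nonneg (Int.emod_nonneg _ h0.ne')]
    exact Int.mod_modEq _ _
  have hbound : ∀ s : Finset I, ∑ i ∈ s, (1 : ℝ) / m i ≤ 1 - (1 - θ) / m i₀ := by
    intro s
    have h := main_finite y Good δ θ hθ.le hKδ hδ ((insert i₀ s).image m) b
      (by
        intro n hn
        obtain ⟨i, _, rfl⟩ := Finset.mem_image.mp hn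
        have := hm i; omega)
      (by
        intro n hn n' hn' hne x hx hx'
        obtain ⟨i, _, rfl⟩ := Finset.mem_image.mp hn
        obtain ⟨j, _, rfl⟩ := Finset.mem_image.mp hn'
        have h1 : (x : ℤ) ≡ a i [ZMOD m i] := (Int.natCast_modEq_iff.mpr hx).trans (hbm i)
        have h2 : (x : ℤ) ≡ a j [ZMOD m j] := (Int.natCast_modEq_iff.mpr hx').trans (hbm j)
        have hi := hm i
        have hj := hm j
        have := hdisj ((x : ℤ) + m i * m j) (by
            have : (1 : ℤ) ≤ (m i : ℤ) * m j := by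
              have h3 : (1 : ℤ) ≤ m i := by omega
              have h4 : (1 : ℤ) ≤ m j := by omega
              nlinarith
            omega) i j
          ((Int.add_modEq_left_iff.mpr (Dvd.intro _ rfl)).trans h1)
          ((Int.add_modEq_left_iff.mpr (Dvd.intro_left _ rfl)).trans h2)
        exact hne (by rw [this]))
      (by
        intro n hn
        obtain ⟨i, _, rfl⟩ := Finset.mem_image.mp hn
        exact hG i)
      (m i₀) (Finset.mem_image_of_mem _ (Finset.mem_insert_self _ _)) hi₀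
    rw [Finset.sum_image (fun i _ j _ h => hinj h)] at h
    refine le_trans ?_ h
    simp only [one_div]
    exact Finset.sum_le_sum_of_subset_of_nonneg (Finset.subset_insert _ _)
      (fun _ _ _ => by positivity)
  have h := hasSum_le_of_sum_le hsum hbound
  have h0 : (0 : ℝ) < m i₀ := by have := hm i₀; positivity
  have : 0 < (1 - θ) / m i₀ := div_pos (by linarith) h0
  linarith

theorem fraenkel_simpson {I : Type*} (a : I → ℤ) (m : I → ℕ) (hm : ∀ i, 2 ≤ m i)
    (hinj : Function.Injective m)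
    (hdisj : ∀ n : ℤ, 1 ≤ n → ∀ i j, n ≡ a i [ZMOD m i] → n ≡ a j [ZMOD m j] → i = j)
    (hsum : HasSum (fun i => (1 : ℝ) / m i) 1) (i : I) :
    ∃ α β : ℕ, m i = 2 ^ α * 3 ^ β := by
  classical
  have hm0 : ∀ i, m i ≠ 0 := fun i => by have := hm i; omega
  -- Step 1: the primes dividing the moduli are bounded
  obtain ⟨y, hy⟩ := exists_good_level
  have hbdd : ∀ j p, p.Prime → p ∣ m j → p < y := by
    intro j p hp hpj
    by_contra hlt
    refine no_full_sum a m hm hinj hdisj hsum y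
      (fun n => n ≠ 0 ∧ ∃ p, p.Prime ∧ p ∣ n ∧ y ≤ p) ((1 / 2) / K y) (1 / 2) (by norm_num)
      (by rw [mul_div_cancel₀ _ (K_pos y).ne']) hy ?_ j ?_
    · intro k hk
      obtain ⟨q, hq, hqd⟩ := Nat.exists_prime_and_dvd hk
      exact ⟨(nn_pos (hm0 k)).ne', q, hq, hqd, nn_rough (hm0 k) q hq hqd⟩
    · intro h
      have := nn_ne_one (hm0 j) hp hpj (not_lt.mp hlt)
      rw [h] at this
      exact hp.one_lt.ne' (Nat.dvd_one.mp this)
  -- Step 2: no prime `≥ 5` divides a modulus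
  have hsmall : ∀ j p, p.Prime → p ∣ m j → p < 5 := by
    by_contra hcon
    push Not at hcon
    set P := (range y).filter (fun p => p.Prime ∧ ∃ j, p ∣ m j) with hP
    obtain ⟨j₁, p₁, hp₁, hd₁, h5⟩ := hcon
    have hmem : ∀ j p, p.Prime → p ∣ m j → p ∈ P := fun j p hp hd =>
      Finset.mem_filter.mpr ⟨Finset.mem_range.mpr (hbdd j p hp hd), hp, j, hd⟩
    have hne : P.Nonempty := ⟨p₁, hmem j₁ p₁ hp₁ hd₁⟩
    set q := P.max' hne with hq
    obtain ⟨_, hqp, j₀, hqd⟩ := Finset.mem_filter.mp (Finset.max'_mem P hne)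
    rw [← hq] at hqp hqd
    have hq5 : 5 ≤ q := h5.trans (Finset.le_max' P p₁ (hmem j₁ p₁ hp₁ hd₁))
    have hq5' : (5 : ℝ) ≤ q := by exact_mod_cast hq5
    refine no_full_sum a m hm hinj hdisj hsum q (fun n => ∃ k, 1 ≤ k ∧ n = q ^ k)
      ((1 - (q : ℝ)⁻¹)⁻¹ * ((q : ℝ) ^ 1)⁻¹) (3 / 4) (by norm_num) ?_
      (fun N _ hN _ => geom_bound hqp 1 N hN) ?_ j₀ ?_
    · have h1 : (1 - (q : ℝ)⁻¹)⁻¹ * ((q : ℝ) ^ 1)⁻¹ = ((q : ℝ) - 1)⁻¹ := by
        have : (q : ℝ) - 1 ≠ 0 := by linarith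
        have : (q : ℝ) ≠ 0 := by linarith
        field_simp
      rw [h1, ← div_eq_mul_inv, div_le_iff₀ (by linarith)]
      exact K_le q hq5
    · intro k hk
      have h := Nat.eq_prime_pow_of_unique_prime_dvd (p := q) (nn_pos (y := q) (hm0 k)).ne' (by
        intro p hp hpd
        have h1 := nn_rough (y := q) (hm0 k) p hp hpd
        have h2 := Finset.le_max' P p (hmem k p hp (hpd.trans (nn_dvd (hm0 k))))
        omega)
      refine ⟨_, ?_, h⟩
      by_contra h0
      have : (nn q (m k)).primeFactorsList.length = 0 := by omega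
      rw [this, pow_zero] at h
      exact hk h
    · intro h
      have := nn_ne_one (hm0 j₀) hqp hqd le_rfl
      rw [h] at this
      exact hqp.one_lt.ne' (Nat.dvd_one.mp this)
  -- Step 3
  have h2 := Nat.eq_prime_pow_of_unique_prime_dvd (p := 2) (dd_pos (y := 3) (hm0 i)).ne' (by
    intro p hp hpd
    have h1 := Nat.mem_smoothNumbers'.mp (dd_smooth (y := 3) (hm0 i)) p hp hpd
    have := hp.two_le
    omega)
  have h3 := Nat.eq_prime_pow_of_unique_prime_dvd (p := 3) (nn_pos (y := 3) (hm0 i)).ne' (by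
    intro p hp hpd
    have h1 := nn_rough (y := 3) (hm0 i) p hp hpd
    have h2 := hsmall i p hp (hpd.trans (nn_dvd (hm0 i)))
    have h4 : p ≠ 4 := by rintro rfl; exact absurd hp (by norm_num)
    omega)
  exact ⟨_, _, by rw [← h2, ← h3, dd_mul_nn (hm0 i)]⟩

end Pool.Agent.Work.MP_cda74c_nt
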