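import Pool.Agent.Work.MP_cda74c_nt.Basic

/-!
The main finite inequality: if `K y * δ ≤ θ` where `δ` bounds the weight of disjoint families of
rough moduli, then a disjoint family containing a non-smooth modulus `m₀` has weight at most
`1 - (1 - θ) / m₀`.
-/

namespace Pool.Agent.Work.MP_cda74c_nt

open Finset

lemma main_finite (y : ℕ) (Good : ℕ → Prop) (δ θ : ℝ) (hθ : θ ≤ 1) (hKδ : K y * δ ≤ θ)
    (hδ : ∀ (N : Finset ℕ) (b : ℕ → ℕ), (∀ n ∈ N, Good n) → Disj N b →
      ∑ n ∈ N, (n : ℝ)⁻¹ ≤ δ)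
    (T : Finset ℕ) (a : ℕ → ℕ) (hT : ∀ m ∈ T, m ≠ 0) (hD : Disj T a)
    (hG : ∀ m ∈ T, nn y m ≠ 1 → Good (nn y m))
    (m₀ : ℕ) (hm₀ : m₀ ∈ T) (hm₀' : nn y m₀ ≠ 1) :
    ∑ m ∈ T, (m : ℝ)⁻¹ ≤ 1 - (1 - θ) / m₀ := by
  classical
  set M := ∏ m ∈ T, m with hMdef
  have hM : 0 < M := Finset.prod_pos fun m hm => Nat.pos_of_ne_zero (hT m hm)
  have hdvd : ∀ m ∈ T, m ∣ M := fun m hm => Finset.dvd_prod_of_mem _ hm
  set T₁ := T.filter (fun m => nn y m ≠ 1) with hT₁
  set T₀ := T.filter (fun m => ¬ nn y m ≠ 1) with hT₀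
  set U := (range M).filter (fun x => ∃ m ∈ T₁, x ≡ a m [MOD dd y m]) with hU
  have hsplit : ∑ m ∈ T, (M : ℝ) / m = ∑ m ∈ T₁, (M : ℝ) / m + ∑ m ∈ T₀, (M : ℝ) / m :=
    (Finset.sum_filter_add_sum_filter_not T _ _).symm
  -- (2)
  have h2 : ∑ m ∈ T₁, (M : ℝ) / m ≤ θ * U.card := by
    have h := fibre_ineq (rogers y) M T₁ a hM (fun m hm => hdvd m (Finset.mem_filter.mp hm).1)
    refine h.trans ?_
    have hpt : ∀ x ∈ range M, ∑ n ∈ seen y T₁ a x, (n : ℝ)⁻¹ ≤ if x ∈ U then δ else 0 := by
      intro x hx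
      split_ifs with hxU
      · have hch : ∀ n ∈ seen y T₁ a x, ∃ m ∈ T₁, x ≡ a m [MOD dd y m] ∧ nn y m = n :=
          fun n hn => mem_seen.mp hn
        choose! μ hμ using hch
        refine hδ (seen y T₁ a x) (fun n => a (μ n)) ?_ ?_
        · intro n hn
          obtain ⟨h1, _, h3⟩ := hμ n hn
          have h1' := Finset.mem_filter.mp h1
          rw [← h3]
          exact hG _ h1'.1 h1'.2
        · intro n hn n' hn' hne t ht ht'
          obtain ⟨h1, h2, h3⟩ := hμ n hn
          obtain ⟨h1', h2', h3'⟩ := hμ n' hn'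
          have hm := (Finset.mem_filter.mp h1).1
          have hm' := (Finset.mem_filter.mp h1').1
          have hcop : Nat.Coprime (dd y (μ n) * dd y (μ n')) (nn y (μ n) * nn y (μ n')) :=
            coprime_of_smooth_rough
              (Nat.mul_mem_smoothNumbers (dd_smooth (hT _ hm)) (dd_smooth (hT _ hm')))
              ((nn_rough (hT _ hm)).mul (nn_rough (hT _ hm')))
          obtain ⟨u, hu1, hu2⟩ := Nat.chineseRemainder hcop x t
          refine hD (μ n) hm (μ n') hm' (fun h => hne (by rw [← h3, ← h3', h])) u ?_ ?_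
          · refine modEq_of_split (y := y) (hT _ hm) ((hu1.of_mul_right _).trans h2) ?_
            refine (hu2.of_mul_right _).trans ?_
            rw [h3]; exact ht
          · refine modEq_of_split (y := y) (hT _ hm') ((hu1.of_mul_left _).trans h2') ?_
            refine (hu2.of_mul_left _).trans ?_
            rw [h3']; exact ht'
      · have : seen y T₁ a x = ∅ := by
          rw [Finset.eq_empty_iff_forall_notMem]
          intro n hn
          obtain ⟨m, hm, h, _⟩ := mem_seen.mp hn
          exact hxU (Finset.mem_filter.mpr ⟨hx, m, hm, h⟩)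
        rw [this]; simp
    have hsum := Finset.sum_le_sum hpt
    have hite : ∑ x ∈ range M, (if x ∈ U then δ else 0) = U.card * δ := by
      rw [← Finset.sum_filter, Finset.sum_const, nsmul_eq_mul]
      congr 3
      ext x
      simp only [Finset.mem_filter, hU]
      tauto
    rw [hite] at hsum
    calc K y * ∑ x ∈ range M, ∑ n ∈ seen y T₁ a x, (n : ℝ)⁻¹ ≤ K y * (U.card * δ) :=
          mul_le_mul_of_nonneg_left hsum (K_pos y).le
      _ = (K y * δ) * U.card := by ring
      _ ≤ θ * U.card := mul_le_mul_of_nonneg_right hKδ (by positivity)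
  -- (1)
  have h1 : ∑ m ∈ T₀, (M : ℝ) / m + U.card ≤ M := by
    set B : ℕ → Finset ℕ := fun m => (range M).filter (fun x => x ≡ a m [MOD m]) with hB
    have hcard : ∑ m ∈ T₀, (M : ℝ) / m = ((T₀.biUnion B).card : ℝ) := by
      rw [Finset.card_biUnion]
      · push_cast
        refine Finset.sum_congr rfl fun m hm => ?_
        rw [card_class (hdvd m (Finset.mem_filter.mp hm).1) hM]
      · intro m hm m' hm' hne
        rw [Function.onFun, Finset.disjoint_left]
        intro x hx hx'
        exact hD m (Finset.mem_filter.mp (Finset.mem_coe.mp hm)).1 m'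
          (Finset.mem_filter.mp (Finset.mem_coe.mp hm')).1 hne x
          (Finset.mem_filter.mp hx).2 (Finset.mem_filter.mp hx').2
    have hdisj : Disjoint (T₀.biUnion B) U := by
      rw [Finset.disjoint_left]
      intro x hx hxU
      obtain ⟨m, hm, hxm⟩ := Finset.mem_biUnion.mp hx
      obtain ⟨_, m', hm', hxm'⟩ := Finset.mem_filter.mp hxU
      have hm1 := Finset.mem_filter.mp hm
      have hm1' := Finset.mem_filter.mp hm'
      have hnn : nn y m = 1 := not_not.mp hm1.2
      have hsm : m ∈ y.smoothNumbers := by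
        have := dd_mul_nn (y := y) (hT m hm1.1)
        rw [hnn, mul_one] at this
        rw [← this]; exact dd_smooth (hT m hm1.1)
      have hcop : Nat.Coprime (m * dd y m') (nn y m') :=
        coprime_of_smooth_rough (Nat.mul_mem_smoothNumbers hsm (dd_smooth (hT _ hm1'.1)))
          (nn_rough (hT _ hm1'.1))
      obtain ⟨u, hu1, hu2⟩ := Nat.chineseRemainder hcop x (a m')
      refine hD m hm1.1 m' hm1'.1 (fun h => hm1'.2 (by rw [← h, hnn])) u ?_ ?_
      · exact (hu1.of_mul_right _).trans (Finset.mem_filter.mp hxm).2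
      · exact modEq_of_split (y := y) (hT _ hm1'.1) ((hu1.of_mul_left _).trans hxm') hu2
    have hsub : T₀.biUnion B ∪ U ⊆ range M := by
      intro x hx
      rcases Finset.mem_union.mp hx with h | h
      · obtain ⟨m, _, hxm⟩ := Finset.mem_biUnion.mp h
        exact (Finset.mem_filter.mp hxm).1
      · exact (Finset.mem_filter.mp h).1
    have := Finset.card_le_card hsub
    rw [Finset.card_union_of_disjoint hdisj, Finset.card_range] at this
    rw [hcard]
    exact_mod_cast this
  -- (3)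
  have h3 : (M : ℝ) / m₀ ≤ U.card := by
    rw [← card_class (hdvd m₀ hm₀) hM (a m₀)]
    have : (range M).filter (fun x => x ≡ a m₀ [MOD m₀]) ⊆ U := by
      intro x hx
      have hx' := Finset.mem_filter.mp hx
      exact Finset.mem_filter.mpr ⟨hx'.1, m₀, Finset.mem_filter.mpr ⟨hm₀, hm₀'⟩,
        hx'.2.of_dvd (dd_dvd (hT _ hm₀))⟩
    exact_mod_cast Finset.card_le_card this
  have hMr : (0 : ℝ) < M := by exact_mod_cast hM
  have hfin : ∑ m ∈ T, (M : ℝ) / m ≤ M - (1 - θ) * (M / m₀) := by
    have := mul_le_mul_of_nonneg_left h3 (sub_nonneg.mpr hθ)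
    rw [hsplit]
    linarith
  have hrew : ∑ m ∈ T, (M : ℝ) / m = M * ∑ m ∈ T, (m : ℝ)⁻¹ := by
    rw [Finset.mul_sum]
    exact Finset.sum_congr rfl fun m _ => div_eq_mul_inv _ _
  rw [hrew] at hfin
  have : (M : ℝ) - (1 - θ) * (M / m₀) = M * (1 - (1 - θ) / m₀) := by ring
  rw [this] at hfin
  exact le_of_mul_le_mul_left hfin hMr

lemma K_le (N : ℕ) (hN : 5 ≤ N) : K N ≤ (3 / 4) * ((N : ℝ) - 1) := by
  induction N, hN using Nat.le_induction with
  | base =>
    have h5 : K 5 = 3 := by
      rw [show (5 : ℕ) = 4 + 1 from rfl, K_succ_not_prime (by norm_num),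
        show (4 : ℕ) = 3 + 1 from rfl, K_succ_prime (by norm_num),
        show (3 : ℕ) = 2 + 1 from rfl, K_succ_prime (by norm_num)]
      have : K 2 = 1 := by simp [K]
      rw [this]; norm_num
    rw [h5]; norm_num
  | succ N hN ih =>
    have hN' : (5 : ℝ) ≤ N := by exact_mod_cast hN
    by_cases hp : N.Prime
    · rw [K_succ_prime hp]
      have h1 : (1 - (N : ℝ)⁻¹)⁻¹ = N / (N - 1) := by
        have : (N : ℝ) - 1 ≠ 0 := by linarith
        have : (N : ℝ) ≠ 0 := by linarith
        field_simp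
      rw [h1]
      push_cast
      have h2 : (0 : ℝ) < N - 1 := by linarith
      calc (N : ℝ) / (N - 1) * K N ≤ N / (N - 1) * ((3 / 4) * ((N : ℝ) - 1)) :=
            mul_le_mul_of_nonneg_left ih (by positivity)
        _ = 3 / 4 * ((N : ℝ) + 1 - 1) := by field_simp; ring
    · rw [K_succ_not_prime hp]
      push_cast
      linarith

end Pool.Agent.Work.MP_cda74c_nt
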